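import Pool.Agent.Q307.Ury.Main

/-!
# Cyclic automorphisms of the rational Urysohn space: elements of order two

Let `N(n)` be the distance of `σ ^ n o` and `o`. The one point extension property gives, first, for
every `ε > 0` an `n` with `N(n) = 1` and `N(2 n) ≤ ε`, and, second, for every `n` with `N(2 n) ≤ ε` an
`m` with `N(2 m) ≤ ε / 2` and `N(n - m) ≤ 3 ε / 4`. Hence there is a Cauchy sequence `n_k` with
`N(2 n_k) → 0` and `N(n_k) ≥ 5/8`, and the limit of `σ ^ n_k` is an isometry of order two.
-/

set_option autoImplicit false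

namespace Pool.Agent.Results.MP_30c7ca_gt.OrderTwo

open Pool.Agent.Q307.Ury

/-- Let `U` be a complete metric space with a dense subset `Q` which is the rational Urysohn space
(so that `U` is the Urysohn space), let `σ` be a cyclic automorphism of `Q` and `τ` its extension to
`U`. Then the closure of the group generated by `τ` contains an element of order two. -/
theorem result {U : Type} [MetricSpace U] [CompleteSpace U] (Q : Set U) (hd : Dense Q)
    (hQ : IsRationalUrysohn Q) (σ : Q ≃ᵢ Q) (hσ : IsCyclic σ) (τ : U ≃ᵢ U)
    (hτ : ∀ x : Q, τ x = σ x) : ∃ g ∈ closurePowers τ, g ≠ 1 ∧ g * g = 1 :=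
  main Q hd hQ σ hσ τ hτ

end Pool.Agent.Results.MP_30c7ca_gt.OrderTwo
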